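import Pool.Agent.Helper32.EK.HJ

set_option autoImplicit false

/-!
# The derivatives of the momenta along the solutions
-/

namespace Pool.Agent.Helper69.EK

open Set Filter Topology Pool.Agent.Helper6K9.ES
open Pool.Agent.Helper6K9.EH (Prof Fam eX eY dst pt Tr mkFam Pv Shf S_PROF S_FLOW)
open scoped ContDiff

namespace AVAL

open HJL

theorem pd_comm {a : PP → ℝ} (ha : SP a) (u v z : PP) : pd u (pd v a) z = pd v (pd u a) z := by
  have hd : Differentiable ℝ (fderiv ℝ a) := (ha.1.fderiv_right (m := ∞) (by simp)).differentiable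
    (by simp)
  have h1 : ∀ u v : PP, pd u (pd v a) z = fderiv ℝ (fderiv ℝ a) z u v := by
    intro u v
    have h2 : HasFDerivAt (fun z => fderiv ℝ a z v)
        ((ContinuousLinearMap.apply ℝ ℝ v).comp (fderiv ℝ (fderiv ℝ a) z)) z :=
      (ContinuousLinearMap.apply ℝ ℝ v).hasFDerivAt.comp z (hd z).hasFDerivAt
    show fderiv ℝ (fun z => fderiv ℝ a z v) z u = _
    rw [h2.fderiv]
    rfl
  rw [h1, h1]
  have h3 : IsSymmSndFDerivAt ℝ a z := (ha.1.contDiffAt).isSymmSndFDerivAt (by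
    rw [minSmoothness_of_isRCLikeNormedField]
    exact WithTop.coe_le_coe.2 (le_top : (2 : ℕ∞) ≤ ⊤))
  exact h3.eq u v

/-- the derivative along a line -/
theorem hda {a : PP → ℝ} (ha : SP a) (z w : PP) :
    HasDerivAt (fun s : ℝ => a (z + s • w)) (pd w a z) 0 := by
  have h1 : HasDerivAt (fun s : ℝ => z + s • w) w 0 := by
    simpa using ((hasDerivAt_id (0 : ℝ)).smul_const w).const_add z
  have h2 : HasFDerivAt a (fderiv ℝ a z) (z + (0 : ℝ) • w) := by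
    rw [zero_smul, add_zero]
    exact (df ha z).hasFDerivAt
  exact h2.comp_hasDerivAt 0 h1

theorem pd_lin (a : PP → ℝ) (z u v : PP) (c : ℝ) : fderiv ℝ a z (u + c • v) =
    pd u a z + c * pd v a z := by
  rw [map_add, map_smul]
  rfl

/-- the derivative of the Hamilton-Jacobi equation -/
theorem hj_der {α γ b : ℝ} {Fh : E 1 → ℝ} {N : ℕ} {σ₁ h ρ : PP → ℝ} (hF : Sm Fh) (hσ : SP σ₁)
    (hh : SP h) (hρ : SP ρ) (hr : ∀ z, resid α γ b Fh σ₁ h z = z.2.1 ^ N * ρ z) (w : PP)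
    (hw1 : w.2.1 = 0) (hw2 : w.2.2 = 0) (z : PP) :
    pd w (pd vx σ₁) z + α * pd vx (dl σ₁) z * pd w (pd vx (dl σ₁)) z +
      z.2.2 * pd w (pd (vy b) (dl σ₁)) z +
      γ * pd (vy b) (dl σ₁) z * pd w (pd (vy b) (dl σ₁)) z + pd w (pd vt (dl σ₁)) z -
      fderiv ℝ Fh z.1 w.1 -
      (pd w h (z + (γ * pd vw (dl σ₁) z) • vy b) +
        γ * pd w (pd vw (dl σ₁)) z * pd (vy b) h (z + (γ * pd vw (dl σ₁) z) • vy b)) =
      z.2.1 ^ N * pd w ρ z := by
  have sl := sp_dl hσ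
  have e1 := hda (sp_pd hσ vx) z w
  have e2 := hda (sp_pd sl vx) z w
  have e3 := hda (sp_pd sl (vy b)) z w
  have e4 := hda (sp_pd sl vt) z w
  have e5 := hda (sp_pd sl vw) z w
  have e6 : HasDerivAt (fun s : ℝ => Fh (z + s • w).1) (fderiv ℝ Fh z.1 w.1) 0 := by
    have h1 : HasDerivAt (fun s : ℝ => (z + s • w).1) w.1 0 := by
      have := ((hasDerivAt_id (0 : ℝ)).smul_const w.1).const_add z.1
      simpa using this
    have h2 : HasFDerivAt Fh (fderiv ℝ Fh z.1) (z + (0 : ℝ) • w).1 := by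
      rw [zero_smul, add_zero]
      exact ((hF.1.differentiable (by simp)) z.1).hasFDerivAt
    exact h2.comp_hasDerivAt 0 h1
  have e7 : HasDerivAt (fun s : ℝ => h (z + s • w + (γ * pd vw (dl σ₁) (z + s • w)) • vy b))
      (pd w h (z + (γ * pd vw (dl σ₁) z) • vy b) +
        γ * pd w (pd vw (dl σ₁)) z * pd (vy b) h (z + (γ * pd vw (dl σ₁) z) • vy b)) 0 := by
    have h1 : HasDerivAt (fun s : ℝ => z + s • w + (γ * pd vw (dl σ₁) (z + s • w)) • vy b)
        (w + (γ * pd w (pd vw (dl σ₁)) z) • vy b) 0 := by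
      have h0 : HasDerivAt (fun s : ℝ => z + s • w) w 0 := by
        simpa using ((hasDerivAt_id (0 : ℝ)).smul_const w).const_add z
      exact h0.add ((e5.const_mul γ).smul_const (vy b))
    have h2 : HasFDerivAt h (fderiv ℝ h (z + (γ * pd vw (dl σ₁) z) • vy b))
        (z + (0 : ℝ) • w + (γ * pd vw (dl σ₁) (z + (0 : ℝ) • w)) • vy b) := by
      rw [zero_smul, add_zero]
      exact (df hh _).hasFDerivAt
    have h3 := h2.comp_hasDerivAt 0 h1
    rw [pd_lin] at h3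
    exact h3
  have eρ := (hda hρ z w).const_mul (z.2.1 ^ N)
  have hd1 : ∀ s : ℝ, (z + s • w).2.1 = z.2.1 := fun s => by simp [hw1]
  have hd2 : ∀ s : ℝ, (z + s • w).2.2 = z.2.2 := fun s => by simp [hw2]
  have hL := ((((((e1.add ((e2.pow 2).const_mul (α / 2))).add (e3.const_mul z.2.2)).add
    ((e3.pow 2).const_mul (γ / 2))).add e4).sub e6).sub e7)
  have hLR : (fun s : ℝ => z.2.1 ^ N * ρ (z + s • w)) = fun s : ℝ =>
      pd vx σ₁ (z + s • w) + α / 2 * pd vx (dl σ₁) (z + s • w) ^ 2 +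
        z.2.2 * pd (vy b) (dl σ₁) (z + s • w) + γ / 2 * pd (vy b) (dl σ₁) (z + s • w) ^ 2 +
        pd vt (dl σ₁) (z + s • w) - Fh (z + s • w).1 -
        h (z + s • w + (γ * pd vw (dl σ₁) (z + s • w)) • vy b) := by
    funext s
    have h1 := hr (z + s • w)
    rw [hd1] at h1
    rw [← h1, resid, hd2]
  rw [hLR] at eρ
  have := hL.unique eρ
  rw [← this]
  simp only [zero_smul, add_zero]
  ring

end AVAL

open HJL AVAL in
theorem ava : S_AVA := by
  intro α γ b R C V₀ Fh N σ₁ h ρ Jf wf hα hγ hF hσ hh hρ hhx hr hC hV hI K f hf p₀ p₁ v q hTr t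
    hvt hqt z hz hdt
  obtain ⟨hp0, hp1, hv, hq⟩ := hTr t
  obtain ⟨hPd, hWd⟩ := hI.dif v q p₀ p₁ t hvt hqt hv.differentiableAt hq.differentiableAt
    hp0.differentiableAt hp1.differentiableAt
  have sl := sp_dl hσ
  have sA := sp_pd sl vx
  have sB := sp_pd sl (vy b)
  -- names
  obtain ⟨P, hPdef⟩ : ∃ P : ℝ → ℝ, P = fun t => Jf (v t) (q t) (pt (p₀ t) (p₁ t) t) := ⟨_, rfl⟩
  obtain ⟨W, hWdef⟩ : ∃ W : ℝ → ℝ, W = fun t => wf (v t) (q t) (pt (p₀ t) (p₁ t) t) := ⟨_, rfl⟩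
  have hz' : z = (pt (p₀ t) (p₁ t) t, 1 / P t, W t) := by
    rw [hz, hPdef, hWdef]
  rw [← hPdef, ← hWdef]
  rw [← hPdef] at hPd
  rw [← hWdef] at hWd
  obtain ⟨P', hP'⟩ : ∃ P', HasDerivAt P P' t := ⟨_, hPd.hasDerivAt⟩
  obtain ⟨W', hW'⟩ : ∃ W', HasDerivAt W W' t := ⟨_, hWd.hasDerivAt⟩
  -- positivity
  obtain ⟨hJv, -, hveq, hqeq⟩ := hI.eqs (v t) (q t) (pt (p₀ t) (p₁ t) t) hvt.le hqt.le
  have hPt : Jf (v t) (q t) (pt (p₀ t) (p₁ t) t) = P t := by rw [hPdef]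
  have hWt : wf (v t) (q t) (pt (p₀ t) (p₁ t) t) = W t := by rw [hWdef]
  rw [hPt] at hJv
  rw [hPt, hWt, ← hz'] at hveq hqeq
  have hv2 : 2 < v t := by linarith
  have hPpos : 0 < P t := by
    have h1 : C / v t ≤ 1 := by
      rw [div_le_one (by linarith)]
      linarith
    have h2 := (abs_le.1 (hJv.trans h1)).1
    linarith
  -- the equations near `t`
  have hnear : ∀ᶠ s in 𝓝 t, V₀ < v s ∧ |q s| < R :=
    (hv.continuousAt.eventually_const_lt hvt).and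
      ((continuous_abs.continuousAt.comp hq.continuousAt).eventually_lt_const hqt)
  obtain ⟨Z, hZdef⟩ : ∃ Z : ℝ → PP, Z = fun s => (pt (p₀ s) (p₁ s) s, 1 / P s, W s) := ⟨_, rfl⟩
  have hZt : Z t = z := by rw [hZdef, hz']
  have hveq' : v =ᶠ[𝓝 t] fun s => P s + α * pd vx (dl σ₁) (Z s) := by
    filter_upwards [hnear] with s hs
    have := (hI.eqs (v s) (q s) (pt (p₀ s) (p₁ s) s) hs.1.le hs.2.le).2.2.1
    rw [hZdef, hPdef, hWdef]
    exact this
  have hqeq' : q =ᶠ[𝓝 t] fun s => W s + γ * pd (vy b) (dl σ₁) (Z s) := by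
    filter_upwards [hnear] with s hs
    have := (hI.eqs (v s) (q s) (pt (p₀ s) (p₁ s) s) hs.1.le hs.2.le).2.2.2
    rw [hZdef, hPdef, hWdef]
    exact this
  -- the derivative of the point
  have hZ : HasDerivAt Z (v t • vx + q t • vy b + vt + (-(P' / P t ^ 2)) • vd + W' • vw) t := by
    have h1 : HasDerivAt (fun s => pt (p₀ s) (p₁ s) s) (pt (v t + b * q t) (q t) 1) t := by
      refine HasDerivAt.prodMk (hasDerivAt_pi.2 fun i => ?_) (hasDerivAt_id t)
      fin_cases i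
      · exact hp0
      · exact hp1
    have h2 : HasDerivAt (fun s => 1 / P s) (-(P' / P t ^ 2)) t := by
      have := hP'.inv hPpos.ne'
      simp only [one_div]
      rw [neg_div] at this
      exact this
    have h3 := h1.prodMk (h2.prodMk hW')
    rw [hZdef]
    convert h3 using 1
    ext i
    · fin_cases i
      · simp [vx, vy, vt, vd, vw, pt, Matrix.vecHead]; ring
      · simp [vx, vy, vt, vd, vw, pt, Matrix.vecHead, Matrix.vecTail]
    · simp [vx, vy, vt, vd, vw, pt]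
    · simp [vx, vy, vt, vd, vw]
    · simp [vx, vy, vt, vd, vw]
  have hcomp : ∀ a : PP → ℝ, SP a → HasDerivAt (fun s => a (Z s))
      (v t * pd vx a z + q t * pd (vy b) a z + pd vt a z + (-(P' / P t ^ 2)) * pd vd a z +
        W' * pd vw a z) t := by
    intro a ha
    have h1 : HasFDerivAt a (fderiv ℝ a z) (Z t) := by
      rw [hZt]
      exact (df ha z).hasFDerivAt
    have h2 := h1.comp_hasDerivAt t hZ
    have h3 : fderiv ℝ a z (v t • vx + q t • vy b + vt + (-(P' / P t ^ 2)) • vd + W' • vw) =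
        v t * pd vx a z + q t * pd (vy b) a z + pd vt a z + (-(P' / P t ^ 2)) * pd vd a z +
        W' * pd vw a z := by
      simp only [map_add, map_smul, smul_eq_mul]
      rfl
    rw [← h3]
    exact h2
  have hv' := (hP'.add ((hcomp _ sA).const_mul α)).congr_of_eventuallyEq hveq'
  have hq' := (hW'.add ((hcomp _ sB).const_mul γ)).congr_of_eventuallyEq hqeq'
  have E1 := hv'.unique hv
  have E2 := hq'.unique hq
  have hz1 : z.1 = pt (p₀ t) (p₁ t) t := by rw [hz']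
  rw [← hz1, (hf _).1] at E1
  rw [← hz1, (hf _).1, (hf _).2] at E2
  have hzd : z.2.1 = 1 / P t := by rw [hz']
  have hzw : z.2.2 = W t := by rw [hz']
  -- the derivatives of the equation
  have D1 := hj_der (α := α) (γ := γ) (b := b) hF hσ hh hρ hr vx rfl rfl z
  have D2 := hj_der (α := α) (γ := γ) (b := b) hF hσ hh hρ hr (vy b) rfl rfl z
  have hvy1 : (vy b).1 = b • ((Pi.single 0 1, 0) : E 1) + ((Pi.single 1 1, 0) : E 1) := by
    ext i
    · fin_cases i <;> simp [vy]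
    · simp [vy]
  have hFx : fderiv ℝ Fh z.1 (vx).1 = dX 0 Fh z.1 := rfl
  have hFy : fderiv ℝ Fh z.1 (vy b).1 = b * dX 0 Fh z.1 + dX 1 Fh z.1 := by
    rw [hvy1, map_add, map_smul]
    rfl
  rw [hFx, hhx, pd_comm sl vx vt, pd_comm sl vx vw] at D1
  rw [hFy, pd_comm sl (vy b) vt, pd_comm sl (vy b) vw] at D2
  -- `δ σ₁`
  have hdl : ∀ u : PP, u.2.1 = 0 → pd u (dl σ₁) = dl (pd u σ₁) := fun u hu => by
    funext y
    exact pd_dl hσ hu y
  have hAx : pd vx (pd vx (dl σ₁)) z = 1 / P t * pd vx (pd vx σ₁) z := by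
    rw [hdl vx rfl, pd_dl (sp_pd hσ vx) rfl, hzd]
  have hAy : pd (vy b) (pd vx (dl σ₁)) z = 1 / P t * pd (vy b) (pd vx σ₁) z := by
    rw [hdl vx rfl, pd_dl (sp_pd hσ vx) rfl, hzd]
  have hAx' : pd vx (pd vx σ₁) z = P t * pd vx (pd vx (dl σ₁)) z := by
    rw [hAx]
    field_simp
  have hAy' : pd (vy b) (pd vx σ₁) z = P t * pd (vy b) (pd vx (dl σ₁)) z := by
    rw [hAy]
    field_simp
  have hBx : pd vx (pd (vy b) (dl σ₁)) z = pd (vy b) (pd vx (dl σ₁)) z := pd_comm sl _ _ _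
  rw [hAx', hzw, hBx] at D1
  rw [hAy', hzw] at D2
  rw [hBx] at E2
  -- the linear system
  have hP2 : P' / P t ^ 2 = z.2.1 ^ 2 * P' := by
    rw [hzd]
    field_simp
  rw [hP2] at E1 E2
  have L1 : (1 / α + a11 σ₁ z) * P' + a12 σ₁ z * (W' + γ * pd (vy b) h
      (z + (γ * pd vw (dl σ₁) z) • vy b)) = dX 0 K z.1 - z.2.1 ^ N * pd vx ρ z := by
    have hα' : α ≠ 0 := hα.ne'
    have h1 : (1 / α + a11 σ₁ z) * P' = (P' + α * (a11 σ₁ z * P')) / α := by
      field_simp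
    have h2 : P' = α * (dX 0 Fh z.1 + dX 0 K z.1) - α *
        (v t * pd vx (pd vx (dl σ₁)) z + q t * pd (vy b) (pd vx (dl σ₁)) z +
          pd vt (pd vx (dl σ₁)) z + -(z.2.1 ^ 2 * P') * pd vd (pd vx (dl σ₁)) z +
          W' * pd vw (pd vx (dl σ₁)) z) := by linear_combination E1
    rw [h1]
    have h3 : P' + α * (a11 σ₁ z * P') = α * ((dX 0 Fh z.1 + dX 0 K z.1) -
        (v t * pd vx (pd vx (dl σ₁)) z + q t * pd (vy b) (pd vx (dl σ₁)) z +
          pd vt (pd vx (dl σ₁)) z + W' * pd vw (pd vx (dl σ₁)) z)) := by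
      rw [a11]
      linear_combination h2
    rw [h3, mul_div_cancel_left₀ _ hα', a12]
    linear_combination (-1) * D1 - pd vx (pd vx (dl σ₁)) z * hveq -
      pd (vy b) (pd vx (dl σ₁)) z * hqeq
  have L2 : a21 b σ₁ z * P' + (1 / γ + a22 b σ₁ z) * (W' + γ * pd (vy b) h
      (z + (γ * pd vw (dl σ₁) z) • vy b)) =
        dX 1 K z.1 + b * dX 0 K z.1 - z.2.1 ^ N * pd (vy b) ρ z := by
    have hγ' : γ ≠ 0 := hγ.ne'
    have h1 : (1 / γ + a22 b σ₁ z) * (W' + γ * pd (vy b) h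
      (z + (γ * pd vw (dl σ₁) z) • vy b)) = (W' + γ * (a22 b σ₁ z * W')) / γ +
        (1 + γ * a22 b σ₁ z) * pd (vy b) h (z + (γ * pd vw (dl σ₁) z) • vy b) := by
      field_simp
    have h3 : W' + γ * (a22 b σ₁ z * W') = γ * ((dX 1 Fh z.1 + dX 1 K z.1 +
        b * (dX 0 Fh z.1 + dX 0 K z.1)) -
        (v t * pd (vy b) (pd vx (dl σ₁)) z + q t * pd (vy b) (pd (vy b) (dl σ₁)) z +
          pd vt (pd (vy b) (dl σ₁)) z + -(z.2.1 ^ 2 * P') * pd vd (pd (vy b) (dl σ₁)) z)) := by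
      rw [a22]
      linear_combination E2
    rw [h1, h3, mul_div_cancel_left₀ _ hγ', a21, a22]
    linear_combination (-1) * D2 - pd (vy b) (pd vx (dl σ₁)) z * hveq -
      pd (vy b) (pd (vy b) (dl σ₁)) z * hqeq
  have hPJ : P' = PJ α γ b N σ₁ ρ z (dX 0 K z.1) (dX 1 K z.1 + b * dX 0 K z.1) := by
    rw [PJ, eq_div_iff hdt, ← L1, ← L2, dt]
    ring
  have hWJ : W' = WJ α γ b N σ₁ h ρ z (dX 0 K z.1) (dX 1 K z.1 + b * dX 0 K z.1) := by
    have h1 : W' + γ * pd (vy b) h (z + (γ * pd vw (dl σ₁) z) • vy b) =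
        ((1 / α + a11 σ₁ z) * (dX 1 K z.1 + b * dX 0 K z.1 - z.2.1 ^ N * pd (vy b) ρ z) -
          a21 b σ₁ z * (dX 0 K z.1 - z.2.1 ^ N * pd vx ρ z)) / dt α γ b σ₁ z := by
      rw [eq_div_iff hdt, ← L1, ← L2, dt]
      ring
    rw [WJ, ← h1]
    ring
  rw [← hPJ, ← hWJ]
  exact ⟨hP', hW'⟩

end Pool.Agent.Helper69.EK
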